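import Pool.Agent.Helper43.Kempe.Geo

/-! # Certificates (strip 3 3) -/

namespace Pool.Agent.Helper43.Kempe.S3

def A : ℕ := 0x3c0000000000000056000000000000006a0000000000000057800000000000006ac00000000000003d400000000000000af00000000000000d5800000000000007a8000000000000015e00000000000001ab00000000000000f5000000000000002b0000000000000035000000000000001e

def B : ℕ := 0xf000000058000000280000001e0000000b00000005000000030000000100000000

def g0 : List Tm := []

def g1 : List Tm := []

def g2 : List Tm := []

def g3 : List Tm := []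

def g4 : List Tm := []

def g5 : List Tm := []

def g6 : List Tm := [⟨0x10000000010000000000000000000000000000000000000000, 0x1c90c8, 0xfc204010334c1c538b286, 1, 7168, 0xca1c90c8, 0x3f0810040ce34c1c52c6⟩,
  ⟨0x10000000000000000000000002000000000000000000000000, 0x1c9106, 0xfc204034c1c40ce2852c8, 1, 7168, 0xca1c90c8106, 0xfc00c204e34c1c42c5⟩,
  ⟨0x4000000000000000400000000000000000000000000000000, 0x149147, 0xfc204034c1440ce2ca206, 2, 7169, 0x20a149147106, 0xfcd30508100e2c8103⟩]

def g7 : List Tm := [⟨0x100000000000000010000000000000000000000000000000000000000, 0xca0c8, 0xfc20401440ce34c2c91c6, 0, 0, 0, 0⟩,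
  ⟨0x2000000000000000000000000000000002000000000000000000000000, 0x20a106, 0xfc100408e34c2481432c7, 1, 7168, 0xca0c8106, 0x3f00308138d30910b1c5⟩,
  ⟨0x2000000000000000000000000400000000000000000000000000000000, 0x20a147, 0xfc204020510338d30b246, 1, 7168, 0xca0c8147, 0x3f0810050ce34c2c9184⟩]

def g8 : List Tm := [⟨0x80000000000000000000000010000000000000000000000000000000000000000, 0x18b0c8, 0xfc00c204e34c246144287, 1, 7168, 0x18b0ca0c8, 0x3f00308138d306144247⟩,
  ⟨0x80000000000000000000000000000000400000000000000000000000000000000, 0x18b147, 0xfc00c204c18510e34a248, 1, 7168, 0x18b0ca0c8147, 0xfc00c204e34c246144⟩,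
  ⟨0x20000000000000000000000000000000000000002000000000000000000000000, 0x10b106, 0xfc204030510338d289207, 2, 7169, 0x10b20a106, 0x3f04030408e348143247⟩]

def lib : List (List Tm) := [g0, g1, g2, g3, g4, g5, g6, g7, g8]

theorem c6 : chkAll 3 0xca0c8 (goodS A 3 15 12 0x7000 0x7fff) lib g6 = true := by decide +kernel

theorem c7 : chkAll 3 0xca0c8 (goodS A 3 15 12 0x7000 0x7fff) lib g7 = true := by decide +kernel

theorem c8 : chkAll 3 0xca0c8 (goodS A 3 15 12 0x7000 0x7fff) lib g8 = true := by decide +kernel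

theorem hlib : ∀ g ∈ lib, ∀ t ∈ g, chk 3 0xca0c8 (goodS A 3 15 12 0x7000 0x7fff) lib t = true := by
  have key : ∀ g ∈ lib, chkAll 3 0xca0c8 (goodS A 3 15 12 0x7000 0x7fff) lib g = true := by
    unfold lib
    simp only [List.forall_mem_cons]
    exact ⟨rfl, rfl, rfl, rfl, rfl, rfl, c6, c7, c8, by simp⟩
  exact fun g hg => chkAll_sound g (key g hg)

theorem hcov : cov B lib 0 [] 0 = true := by decide +kernel

theorem main (b : ℕ) (hb : 5 ≤ b) (φ φ' : ZMod 3 × ZMod b → Fin 5)
    (hφ : Proper (TriGrid 3 b).Adj Set.univ φ) (hφ' : Proper (TriGrid 3 b).Adj Set.univ φ') :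
    Relation.ReflTransGen (Step (TriGrid 3 b).Adj Set.univ) φ φ' :=
  strip_main (M := 3) (A := A) (B := B) (N := 15) (N1 := 12) (LAST := 0x7000)
    (FULL := 0x7fff) (P0 := 0xca0c8) (by norm_num) hb (by norm_num) (by norm_num)
    (by norm_num) (by norm_num) (by decide +kernel) (by decide +kernel)
    (by decide +kernel) (lib := lib) rfl hlib hcov hφ hφ'

end Pool.Agent.Helper43.Kempe.S3
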