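import Pool.Agent.Helper43.Kempe.Data.S5L

/-! # Certificate checks, part 3 -/

namespace Pool.Agent.Helper43.Kempe.S5

theorem c10 : chkAll 5 0x4dc4d94d5 (goodS A 5 35 30 0x7c0000000 0x7ffffffff) lib g10 = true := by decide +kernel

theorem c16 : chkAll 5 0x4dc4d94d5 (goodS A 5 35 30 0x7c0000000 0x7ffffffff) lib g16 = true := by decide +kernel

theorem c17 : chkAll 5 0x4dc4d94d5 (goodS A 5 35 30 0x7c0000000 0x7ffffffff) lib g17 = true := by decide +kernel

theorem c19 : chkAll 5 0x4dc4d94d5 (goodS A 5 35 30 0x7c0000000 0x7ffffffff) lib g19 = true := by decide +kernel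

end Pool.Agent.Helper43.Kempe.S5
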