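import Pool.Agent.Helper43.Kempe.Data.S5c1
import Pool.Agent.Helper43.Kempe.Data.S5c2
import Pool.Agent.Helper43.Kempe.Data.S5c3

/-! # Certificates (strip 5 5) -/

namespace Pool.Agent.Helper43.Kempe.S5

theorem hlib : ∀ g ∈ lib, ∀ t ∈ g, chk 5 0x4dc4d94d5 (goodS A 5 35 30 0x7c0000000 0x7ffffffff) lib t = true := by
  have key : ∀ g ∈ lib, chkAll 5 0x4dc4d94d5 (goodS A 5 35 30 0x7c0000000 0x7ffffffff) lib g = true := by
    unfold lib
    simp only [List.forall_mem_cons]
    exact ⟨rfl, rfl, rfl, rfl, rfl, rfl, rfl, rfl, rfl, rfl, c10, c11, c12, c13, c14, c15, c16, c17, c18, c19, rfl, c21, rfl, c23, rfl, by simp⟩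
  exact fun g hg => chkAll_sound g (key g hg)

theorem hcov : cov B lib 0 [] 0 = true := by decide +kernel

theorem main (b : ℕ) (hb : 7 ≤ b) (φ φ' : ZMod 5 × ZMod b → Fin 5)
    (hφ : Proper (TriGrid 5 b).Adj Set.univ φ) (hφ' : Proper (TriGrid 5 b).Adj Set.univ φ') :
    Relation.ReflTransGen (Step (TriGrid 5 b).Adj Set.univ) φ φ' :=
  strip_main (M := 5) (A := A) (B := B) (N := 35) (N1 := 30) (LAST := 0x7c0000000)
    (FULL := 0x7ffffffff) (P0 := 0x4dc4d94d5) (by norm_num) hb (by norm_num) (by norm_num)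
    (by norm_num) (by norm_num) (by decide +kernel) (by decide +kernel)
    (by decide +kernel) (lib := lib) rfl hlib hcov hφ hφ'

end Pool.Agent.Helper43.Kempe.S5
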