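import Pool.Agent.Helper43.Kempe.Geo

/-! # Certificates (torus 3 3) -/

namespace Pool.Agent.Helper43.Kempe.T33

def A : ℕ := 0xf5000000000000015e00000000000001ab000000000000015e00000000000001ab00000000000000f500000000000001ab00000000000000f5000000000000015e

def B : ℕ := 0xf50000005e0000002b0000001e0000000b00000005000000030000000100000000

def g0 : List Tm := []

def g1 : List Tm := []

def g2 : List Tm := []

def g3 : List Tm := []

def g4 : List Tm := []

def g5 : List Tm := []

def g6 : List Tm := [⟨0x4000000000000000400000000000000000000000000000000, 0x86084, 0x81c50c2040, 1, 7168, 0x7086005084, 0x80c2040⟩]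

def g7 : List Tm := [⟨0x100000000000000010000000000000000000000000000000000000000, 0x7005, 0x206103081, 0, 0, 0, 0⟩]

def g8 : List Tm := [⟨0x20000000000000000000000000000000000000002000000000000000000000000, 0x48043, 0x11c6144080, 1, 7168, 0x48007005043, 0x6102040⟩]

def lib : List (List Tm) := [g0, g1, g2, g3, g4, g5, g6, g7, g8]

theorem c6 : chkAll 0 0x7005 (goodT A 9 0x1ff) lib g6 = true := by decide +kernel

theorem c7 : chkAll 0 0x7005 (goodT A 9 0x1ff) lib g7 = true := by decide +kernel

theorem c8 : chkAll 0 0x7005 (goodT A 9 0x1ff) lib g8 = true := by decide +kernel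

theorem hlib : ∀ g ∈ lib, ∀ t ∈ g, chk 0 0x7005 (goodT A 9 0x1ff) lib t = true := by
  have key : ∀ g ∈ lib, chkAll 0 0x7005 (goodT A 9 0x1ff) lib g = true := by
    unfold lib
    simp only [List.forall_mem_cons]
    exact ⟨rfl, rfl, rfl, rfl, rfl, rfl, c6, c7, c8, by simp⟩
  exact fun g hg => chkAll_sound g (key g hg)

theorem hcov : cov B lib 0 [] 0 = true := by decide +kernel

theorem main (φ φ' : ZMod 3 × ZMod 3 → Fin 5)
    (hφ : Proper (TriGrid 3 3).Adj Set.univ φ) (hφ' : Proper (TriGrid 3 3).Adj Set.univ φ') :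
    Relation.ReflTransGen (Step (TriGrid 3 3).Adj Set.univ) φ φ' :=
  torus_main (A := A) (B := B) (N := 9) (FULL := 0x1ff) (P0 := 0x7005) (by norm_num)
    (by norm_num) (by norm_num) (by norm_num) (by norm_num) (by decide +kernel)
    (by decide +kernel) (lib := lib) rfl hlib hcov hφ hφ'

end Pool.Agent.Helper43.Kempe.T33
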