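import Pool.Agent.Helper43.Kempe.Geo

/-! # Certificates (torus 3 4) -/

namespace Pool.Agent.Helper43.Kempe.T34

def A : ℕ := 0x7850000000000000ac60000000000000d430000000000000af00000000000000d5800000000000007a8000000000000015e00000000000001ab00000000000000f50000000000000c2b00000000000006350000000000000a1e

def B : ℕ := 0x785000002c600000143000000f000000058000000280000001e0000000b00000005000000030000000100000000

def g0 : List Tm := []

def g1 : List Tm := []

def g2 : List Tm := []

def g3 : List Tm := []

def g4 : List Tm := []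

def g5 : List Tm := []

def g6 : List Tm := [⟨0x4000000000000000400000000000000000000000000000000, 0x86084, 0x2420402ca207143, 1, 8192, 0xc8086005084, 0x2430802ca1c1⟩,
  ⟨0x10000000010000000000000000000000000000000000000000, 0x106005, 0x2891020402c81c3, 2, 7168, 0x7106005, 0x100a24408b203⟩,
  ⟨0x1000000000000000400000000000000000000000000000000, 0x6084, 0x2070802ca241143, 2, 10240, 0xca0c8006084, 0xc20402c91c5⟩,
  ⟨0x2000000000000000400000000000000000000000000000000, 0x46084, 0x2070812ca2400c5, 2, 10240, 0xca0c8046084, 0xc20402c91c5⟩]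

def g7 : List Tm := [⟨0x100000000000000010000000000000000000000000000000000000000, 0x7005, 0x8100b289206103, 1, 8192, 0xc8007005, 0x2ca243081184⟩]

def g8 : List Tm := [⟨0x80000000000000000000000010000000000000000000000000000000000000000, 0xc8005, 0xb2891830811c4, 0, 0, 0, 0⟩,
  ⟨0x20000000000000000000000000000000000000002000000000000000000000000, 0x48043, 0x8100b2891c6144, 1, 8192, 0x48005043, 0x918100b287102⟩,
  ⟨0x10000000000000000000000000000000000000002000000000000000000000000, 0x8043, 0x2891c60402c2144, 2, 11264, 0x10b008106043, 0x1020402891c5⟩,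
  ⟨0x40000000000000000000000000000000000000002000000000000000000000000, 0x88043, 0x18204a2472c0105, 2, 11264, 0x10b088106043, 0x10204a247140⟩]

def g9 : List Tm := []

def g10 : List Tm := [⟨0x800000000000000080000000000000000000000000000000000000000000000000000000000000000, 0xca0c8, 0x1440c20402c91c6, 1, 8192, 0xca0c8005, 0x30402c91c6102⟩]

def g11 : List Tm := [⟨0x100000000000000000000000000000000000000010000000000000000000000000000000000000000000000000, 0x10b106, 0x1440c2040289207, 1, 8192, 0x10b0c8106005, 0x9103081287⟩]

def lib : List (List Tm) := [g0, g1, g2, g3, g4, g5, g6, g7, g8, g9, g10, g11]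

theorem c6 : chkAll 0 0xc8005 (goodT A 12 0xfff) lib g6 = true := by decide +kernel

theorem c7 : chkAll 0 0xc8005 (goodT A 12 0xfff) lib g7 = true := by decide +kernel

theorem c8 : chkAll 0 0xc8005 (goodT A 12 0xfff) lib g8 = true := by decide +kernel

theorem c10 : chkAll 0 0xc8005 (goodT A 12 0xfff) lib g10 = true := by decide +kernel

theorem c11 : chkAll 0 0xc8005 (goodT A 12 0xfff) lib g11 = true := by decide +kernel

theorem hlib : ∀ g ∈ lib, ∀ t ∈ g, chk 0 0xc8005 (goodT A 12 0xfff) lib t = true := by
  have key : ∀ g ∈ lib, chkAll 0 0xc8005 (goodT A 12 0xfff) lib g = true := by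
    unfold lib
    simp only [List.forall_mem_cons]
    exact ⟨rfl, rfl, rfl, rfl, rfl, rfl, c6, c7, c8, rfl, c10, c11, by simp⟩
  exact fun g hg => chkAll_sound g (key g hg)

theorem hcov : cov B lib 0 [] 0 = true := by decide +kernel

theorem main (φ φ' : ZMod 3 × ZMod 4 → Fin 5)
    (hφ : Proper (TriGrid 3 4).Adj Set.univ φ) (hφ' : Proper (TriGrid 3 4).Adj Set.univ φ') :
    Relation.ReflTransGen (Step (TriGrid 3 4).Adj Set.univ) φ φ' :=
  torus_main (A := A) (B := B) (N := 12) (FULL := 0xfff) (P0 := 0xc8005) (by norm_num)
    (by norm_num) (by norm_num) (by norm_num) (by norm_num) (by decide +kernel)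
    (by decide +kernel) (lib := lib) rfl hlib hcov hφ hφ'

end Pool.Agent.Helper43.Kempe.T34
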