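import Pool.Agent.Helper43.Kempe.Data.T55L

/-! # Certificate checks, part 3 -/

namespace Pool.Agent.Helper43.Kempe.T55

theorem c14 : chkAll 0 0x1120d1048 (goodT A 25 0x1ffffff) lib g14 = true := by decide +kernel

theorem c15 : chkAll 0 0x1120d1048 (goodT A 25 0x1ffffff) lib g15 = true := by decide +kernel

end Pool.Agent.Helper43.Kempe.T55
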