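import Pool.Agent.Helper43.Kempe.Data.T55c1
import Pool.Agent.Helper43.Kempe.Data.T55c2
import Pool.Agent.Helper43.Kempe.Data.T55c3
import Pool.Agent.Helper43.Kempe.Data.T55c4
import Pool.Agent.Helper43.Kempe.Data.T55c5

/-! # Certificates (torus 5 5) -/

namespace Pool.Agent.Helper43.Kempe.T55

theorem hlib : ∀ g ∈ lib, ∀ t ∈ g, chk 0 0x1120d1048 (goodT A 25 0x1ffffff) lib t = true := by
  have key : ∀ g ∈ lib, chkAll 0 0x1120d1048 (goodT A 25 0x1ffffff) lib g = true := by
    unfold lib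
    simp only [List.forall_mem_cons]
    exact ⟨rfl, rfl, rfl, rfl, rfl, rfl, rfl, rfl, rfl, rfl, c10, c11, c12, c13, c14, c15, c16, c17, c18, c19, rfl, rfl, rfl, rfl, rfl, by simp⟩
  exact fun g hg => chkAll_sound g (key g hg)

theorem hcov : cov B lib 0 [] 0 = true := by decide +kernel

theorem main (φ φ' : ZMod 5 × ZMod 5 → Fin 5)
    (hφ : Proper (TriGrid 5 5).Adj Set.univ φ) (hφ' : Proper (TriGrid 5 5).Adj Set.univ φ') :
    Relation.ReflTransGen (Step (TriGrid 5 5).Adj Set.univ) φ φ' :=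
  torus_main (A := A) (B := B) (N := 25) (FULL := 0x1ffffff) (P0 := 0x1120d1048) (by norm_num)
    (by norm_num) (by norm_num) (by norm_num) (by norm_num) (by decide +kernel)
    (by decide +kernel) (lib := lib) rfl hlib hcov hφ hφ'

end Pool.Agent.Helper43.Kempe.T55
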