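import Pool.Agent.Helper43.Kempe.Data.T56L

/-! # Certificate checks, part 2 -/

namespace Pool.Agent.Helper43.Kempe.T56

theorem c13 : chkAll 0 0x35134f20a (goodT A 30 0x3fffffff) lib g13 = true := by decide +kernel

theorem c16 : chkAll 0 0x35134f20a (goodT A 30 0x3fffffff) lib g16 = true := by decide +kernel

theorem c17 : chkAll 0 0x35134f20a (goodT A 30 0x3fffffff) lib g17 = true := by decide +kernel

end Pool.Agent.Helper43.Kempe.T56
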