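import Pool.Agent.Helper43.Kempe.Data.T56L

/-! # Certificate checks, part 3 -/

namespace Pool.Agent.Helper43.Kempe.T56

theorem c10 : chkAll 0 0x35134f20a (goodT A 30 0x3fffffff) lib g10 = true := by decide +kernel

theorem c11 : chkAll 0 0x35134f20a (goodT A 30 0x3fffffff) lib g11 = true := by decide +kernel

theorem c12 : chkAll 0 0x35134f20a (goodT A 30 0x3fffffff) lib g12 = true := by decide +kernel

theorem c18 : chkAll 0 0x35134f20a (goodT A 30 0x3fffffff) lib g18 = true := by decide +kernel

theorem c19 : chkAll 0 0x35134f20a (goodT A 30 0x3fffffff) lib g19 = true := by decide +kernel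

end Pool.Agent.Helper43.Kempe.T56
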