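import Pool.Agent.Helper43.Kempe.Data.T56c1
import Pool.Agent.Helper43.Kempe.Data.T56c2
import Pool.Agent.Helper43.Kempe.Data.T56c3

/-! # Certificates (torus 5 6) -/

namespace Pool.Agent.Helper43.Kempe.T56

theorem hlib : ∀ g ∈ lib, ∀ t ∈ g, chk 0 0x35134f20a (goodT A 30 0x3fffffff) lib t = true := by
  have key : ∀ g ∈ lib, chkAll 0 0x35134f20a (goodT A 30 0x3fffffff) lib g = true := by
    unfold lib
    simp only [List.forall_mem_cons]
    exact ⟨rfl, rfl, rfl, rfl, rfl, rfl, rfl, rfl, rfl, rfl, c10, c11, c12, c13, c14, c15, c16, c17, c18, c19, rfl, rfl, rfl, rfl, rfl, rfl, rfl, rfl, rfl, rfl, by simp⟩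
  exact fun g hg => chkAll_sound g (key g hg)

theorem hcov : cov B lib 0 [] 0 = true := by decide +kernel

theorem main (φ φ' : ZMod 5 × ZMod 6 → Fin 5)
    (hφ : Proper (TriGrid 5 6).Adj Set.univ φ) (hφ' : Proper (TriGrid 5 6).Adj Set.univ φ') :
    Relation.ReflTransGen (Step (TriGrid 5 6).Adj Set.univ) φ φ' :=
  torus_main (A := A) (B := B) (N := 30) (FULL := 0x3fffffff) (P0 := 0x35134f20a) (by norm_num)
    (by norm_num) (by norm_num) (by norm_num) (by norm_num) (by decide +kernel)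
    (by decide +kernel) (lib := lib) rfl hlib hcov hφ hφ'

end Pool.Agent.Helper43.Kempe.T56
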