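import Pool.Agent.Helper43.Kempe.Data.T56L

/-! # Certificate checks, part 1 -/

namespace Pool.Agent.Helper43.Kempe.T56

theorem c14 : chkAll 0 0x35134f20a (goodT A 30 0x3fffffff) lib g14 = true := by decide +kernel

theorem c15 : chkAll 0 0x35134f20a (goodT A 30 0x3fffffff) lib g15 = true := by decide +kernel

end Pool.Agent.Helper43.Kempe.T56
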